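import Pool.Agent.Helper15_SIU.Stmts

/-!
# MP_021b97_an, module CMP: `∫ K ∧ f^* ω_L = ∫ K ∧ (ω_H - ω_L)`
-/

set_option autoImplicit false

open MeasureTheory Filter Topology

namespace Pool.Agent.SIU.H91

theorem lp_false {k : ℕ} (η : E7 → Alt 7 k) (z : E7) : lp (LL false) η z = η z := by
  ext v
  rfl

theorem wedge3 (hWDG : WdgStmt) {N k l : ℕ} (K : Alt N k) (a b c : Alt N l)
    (v : Fin (k + l) → Fin N → ℂ) :
    (wedge K (a + b - c)) v = (wedge K a) v + (wedge K b) v - (wedge K c) v := by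
  have wadd := (hWDG N k l).2.1
  have wsm := fun t a b => ((hWDG N k l).2.2.1 t a b).2
  have e1 : a + b - c = a + b + (-1 : ℝ) • c := by
    ext w
    simp only [ContinuousAlternatingMap.add_apply, ContinuousAlternatingMap.smul_apply,
      ContinuousAlternatingMap.sub_apply, smul_eq_mul]
    ring
  rw [e1, wadd, wadd, wsm]
  simp only [ContinuousAlternatingMap.add_apply, ContinuousAlternatingMap.smul_apply, smul_eq_mul]
  ring

theorem wedge_val (X : Alt 7 2) (K : Alt 7 6) (v : Fin 8 → E7) :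
    (@wedge 7 6 (1 + 1) K X) v = (@wedge 7 6 2 K X) v :=
  congrArg (fun (η : Alt 7 8) => η v) (show (@wedge 7 6 (1 + 1) K X) = (@wedge 7 6 2 K X) from rfl)

theorem chi1 (x : Fin 4 → ℂ) (K : E7 → Alt 7 6) :
    chi (fun z => wedge (K z) (extDeriv dcr z)) x =
      (@wedge 7 6 2 (K (sig x)) (extDeriv dcr (sig x))) (fun i : Fin 8 => inc (stdb 4 8 i)) :=
  wedge_val _ _ _

theorem chi2 (b : Bool) (η : E7 → Alt 7 2) (x : Fin 4 → ℂ) (K : E7 → Alt 7 6) :
    chi (lamF b K η) x =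
      (@wedge 7 6 2 (K (sig x)) (lp (LL b) η (sig x))) (fun i : Fin 8 => inc (stdb 4 8 i)) := rfl

theorem chi3 (x : Fin 4 → ℂ) (K : E7 → Alt 7 6) (X : Alt 7 2) (h : extDeriv dcr (sig x) = X) :
    chi (fun z => wedge (K z) (extDeriv dcr z)) x =
      (@wedge 7 6 2 (K (sig x)) X) (fun i : Fin 8 => inc (stdb 4 8 i)) :=
  (chi1 x K).trans (congrArg (fun Y : Alt 7 2 =>
    (@wedge 7 6 2 (K (sig x)) Y) (fun i : Fin 8 => inc (stdb 4 8 i))) h)

theorem chi4 (hWDG : WdgStmt) (x : Fin 4 → ℂ) (K : E7 → Alt 7 6) (a b c : Alt 7 2)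
    (h : extDeriv dcr (sig x) = a + b - c) :
    chi (fun z => wedge (K z) (extDeriv dcr z)) x =
      (@wedge 7 6 2 (K (sig x)) a) (fun i : Fin 8 => inc (stdb 4 8 i)) +
      (@wedge 7 6 2 (K (sig x)) b) (fun i : Fin 8 => inc (stdb 4 8 i)) -
      (@wedge 7 6 2 (K (sig x)) c) (fun i : Fin 8 => inc (stdb 4 8 i)) :=
  (chi3 x K _ h).trans (wedge3 hWDG _ _ _ _ _)

theorem chi5 (hWDG : WdgStmt) (x : Fin 4 → ℂ) (K : E7 → Alt 7 6)
    (h : extDeriv dcr (sig x) = lp (LL false) kL (sig x) + lp (LL true) kL (sig x) -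
      lp (LL false) kH (sig x)) :
    chi (fun z => wedge (K z) (extDeriv dcr z)) x =
      chi (lamF false K kL) x + chi (lamF true K kL) x - chi (lamF false K kH) x :=
  chi4 hWDG x K _ _ _ h

theorem cmp (hWDG : WdgStmt) (hLIN : LinStmt) (hLGR : LgrStmt) (hCUT : CutStmt)
    (hKFM : KfmStmt) (_hBDF : BdfStmt) : CmpStmt := by
  intro K hK
  obtain ⟨hK1, hK2, hK3⟩ := hK
  obtain ⟨hd1, hd2, ⟨C, hd3⟩, hd4⟩ := hLGR
  have h0 := hCUT K dcr C ⟨hK1, hK2, hK3⟩ (hd2.of_le (by exact_mod_cast le_top)) hd1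
    (fun z hz => (hd3 z hz).1) (fun z hz => (hd3 z hz).2)
  have hL := hKFM.2.2.1 kL (by simp)
  have hH := hKFM.2.2.1 kH (by simp)
  have i1 := ((hLIN true K hK1.continuousOn hK2).1 kL hL.2.continuousOn hL.1).2.2.2
  have i2 := ((hLIN false K hK1.continuousOn hK2).1 kL hL.2.continuousOn hL.1).2.2.2
  have i3 := ((hLIN false K hK1.continuousOn hK2).1 kH hH.2.continuousOn hH.1).2.2.2
  have hae : ∀ᵐ x : Fin 4 → ℂ, chi (fun z => wedge (K z) (extDeriv dcr z)) x =
      chi (lamF false K kL) x + chi (lamF true K kL) x - chi (lamF false K kH) x := by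
    have hne : ∀ᵐ x : Fin 4 → ℂ, x 1 ≠ 0 :=
      Measure.ae_eval_ne (μ := fun _ : Fin 4 => (volume : Measure ℂ)) (1 : Fin 4) (0 : ℂ)
    filter_upwards [hne] with x hx
    have hx' : sig x ∈ U2' := (sig_mem_U2' x).mpr (Or.inl hx)
    refine chi5 hWDG x K ?_
    rw [lp_false, lp_false]
    exact hd4 _ hx'
  have hsum : Integrable (fun x => chi (lamF false K kL) x + chi (lamF true K kL) x) := i2.add i1
  rw [integral_congr_ae hae, integral_sub hsum i3, integral_add i2 i1] at h0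
  unfold Lam
  linarith

end Pool.Agent.SIU.H91
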