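import Pool.Agent.Helper15_SIU.Stmts

/-!
# MP_021b97_an, module GEN: smooth `2`-forms are generated by `a df ∧ dg`
-/

set_option autoImplicit false

open MeasureTheory Filter Topology

namespace Pool.Agent.SIU.H91

/-! ## general facts -/

theorem contDiff_eval (N k : ℕ) (n : WithTop ℕ∞) :
    ContDiff ℝ n (fun p : Alt N k × (Fin k → Fin N → ℂ) => p.1 p.2) := by
  have h := ContinuousLinearMap.analyticOnNhd_uncurry_of_multilinear
    (ContinuousAlternatingMap.toContinuousMultilinearMapCLM (𝕜 := ℝ) (E := Fin N → ℂ) (F := ℝ)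
      (ι := Fin k) ℝ) (s := Set.univ)
  exact h.contDiff

theorem w1_apply {N k : ℕ} (c : (Fin N → ℂ) →L[ℝ] ℝ) (a : Alt N k)
    (v : Fin (k + 1) → Fin N → ℂ) :
    w1 c a v = ∑ i : Fin (k + 1), (-1 : ℤ) ^ (i : ℕ) • (c (v i) * a (i.removeNth v)) :=
  ContinuousAlternatingMap.alternatizeUncurryFin_apply _ _

theorem cc2_apply {N : ℕ} (b c : (Fin N → ℂ) →L[ℝ] ℝ) (v : Fin 2 → Fin N → ℂ) :
    cc2 b c v = b (v 0) * c (v 1) - b (v 1) * c (v 0) := by
  have h1 : ∀ u : Fin (0 + 1) → Fin N → ℂ, w1 c (cst N 1) u = c (u 0) := by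
    intro u
    rw [w1_apply, Fin.sum_univ_one]
    simp [cst]
  have h2 : cc2 b c v = _ := w1_apply b (w1 c (cst N 1)) v
  rw [h2, Fin.sum_univ_two, h1, h1]
  simp [Fin.removeNth]
  ring

/-! ## the data -/

/-- the polynomial maps -/
noncomputable def W (k : Fin 3) (a : Fin 5) (z : E7) : ℂ :=
  (![![z 0, z 1, 0, 0, 0], ![z 0 * z 2, z 0 * z 3, z 1 * z 2, z 1 * z 3, z 4],
    ![z 5, z 6, 0, 0, 0]] : Fin 3 → Fin 5 → ℂ) k a

/-- their derivatives -/
noncomputable def W' (k : Fin 3) (a : Fin 5) (z v : E7) : ℂ :=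
  (![![v 0, v 1, 0, 0, 0], ![v 0 * z 2 + z 0 * v 2, v 0 * z 3 + z 0 * v 3,
    v 1 * z 2 + z 1 * v 2, v 1 * z 3 + z 1 * v 3, v 4],
    ![v 5, v 6, 0, 0, 0]] : Fin 3 → Fin 5 → ℂ) k a

/-- the squared norms -/
noncomputable def H (k : Fin 3) (z : E7) : ℝ := (![AA z, DD z, YY z] : Fin 3 → ℝ) k

/-- the tangent vectors -/
noncomputable def T (k : Fin 3) (a : Fin 5) (z : E7) : E7 :=
  (![![![1, 0, 0, 0, 0, 0, 0], ![0, 1, 0, 0, 0, 0, 0], 0, 0, 0],
    ![![0, 0, (starRingEnd ℂ) (z 0) / (AA z : ℂ), 0, 0, 0, 0],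
      ![0, 0, 0, (starRingEnd ℂ) (z 0) / (AA z : ℂ), 0, 0, 0],
      ![0, 0, (starRingEnd ℂ) (z 1) / (AA z : ℂ), 0, 0, 0, 0],
      ![0, 0, 0, (starRingEnd ℂ) (z 1) / (AA z : ℂ), 0, 0, 0],
      ![0, 0, 0, 0, 1, 0, 0]],
    ![![0, 0, 0, 0, 0, 1, 0], ![0, 0, 0, 0, 0, 0, 1], 0, 0, 0]] : Fin 3 → Fin 5 → E7) k a

theorem W_smooth (k : Fin 3) (a : Fin 5) (n : WithTop ℕ∞) : ContDiff ℝ n (W k a) := by
  have h : ∀ j : Fin 7, ContDiff ℝ n (fun z : E7 => z j) := fun j => contDiff_apply ℝ ℂ j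
  unfold W
  fin_cases k <;> fin_cases a <;> simp <;>
    first
    | exact contDiff_const
    | exact h _
    | exact (h _).mul (h _)

theorem W_deriv (k : Fin 3) (a : Fin 5) (z v : E7) : fderiv ℝ (W k a) z v = W' k a z v := by
  have h : ∀ j : Fin 7, HasFDerivAt (𝕜 := ℝ) (fun z : E7 => z j)
      (ContinuousLinearMap.proj j : E7 →L[ℝ] ℂ) z := fun j => hasFDerivAt_apply j z
  have h2 : ∀ i j : Fin 7, fderiv ℝ (fun z : E7 => z i * z j) z v = v i * z j + z i * v j := by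
    intro i j
    have e : HasFDerivAt (𝕜 := ℝ) (fun z : E7 => z i * z j)
        (z i • (ContinuousLinearMap.proj j : E7 →L[ℝ] ℂ) +
          z j • (ContinuousLinearMap.proj i : E7 →L[ℝ] ℂ)) z := (h i).mul (h j)
    rw [e.fderiv]
    simp
    ring
  have h1 : ∀ i : Fin 7, fderiv ℝ (fun z : E7 => z i) z v = v i := by
    intro i
    rw [(h i).fderiv]
    simp
  unfold W W'
  fin_cases k <;> fin_cases a <;> simp <;>
    first
    | exact h1 _
    | exact h2 _ _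

theorem H_pos (k : Fin 3) {z : E7} (hz : z ∈ X2.U) : 0 < H k z := by
  unfold H
  fin_cases k
  · exact AA_pos hz
  · exact DD_pos hz
  · exact YY_pos hz

theorem H_eq (k : Fin 3) (z : E7) :
    ((H k z : ℝ) : ℂ) = ∑ a, W k a z * (starRingEnd ℂ) (W k a z) := by
  have key : ∀ x : ℂ, x * (starRingEnd ℂ) x = ((‖x‖ ^ 2 : ℝ) : ℂ) := by
    intro x
    rw [Complex.mul_conj, Complex.normSq_eq_norm_sq]
  simp only [key, Fin.sum_univ_five]
  norm_cast
  unfold H W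
  fin_cases k
  · simp [AA]
  · simp [DD]
    ring
  · simp [YY]

theorem W_act (k : Fin 3) (a : Fin 5) {c : Fin 3 → ℂ} (hc : ∀ j, c j ≠ 0) (z : E7) :
    W k a (X2.act c z) = c k * W k a z := by
  have h0 := hc 0
  rw [act_eq]
  unfold W
  fin_cases k <;> fin_cases a <;> simp <;> field_simp

theorem T_act (k : Fin 3) (a : Fin 5) {c : Fin 3 → ℂ} (hc : ∀ j, c j ≠ 0) {z : E7}
    (hz : z ∈ X2.U) : c k • T k a (X2.act c z) = X2.act c (T k a z) := by
  have h0 := hc 0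
  have hA : (AA z : ℂ) ≠ 0 := by exact_mod_cast (AA_pos hz).ne'
  have hn : (starRingEnd ℂ) (c 0) ≠ 0 := by simpa using h0
  have hcc : ((‖c 0‖ : ℝ) : ℂ) ^ 2 = c 0 * (starRingEnd ℂ) (c 0) := by
    rw [Complex.mul_conj, Complex.normSq_eq_norm_sq]
    push_cast
    rfl
  have key : ∀ x : ℂ, (starRingEnd ℂ) (c 0 * x) / ((AA (X2.act c z) : ℝ) : ℂ) =
      (c 0)⁻¹ * ((starRingEnd ℂ) x / (AA z : ℂ)) := by
    intro x
    rw [AA_act]
    push_cast
    rw [hcc, map_mul]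
    field_simp
  have a0 : X2.act c z 0 = c 0 * z 0 := by rw [act_eq]; simp
  have a1 : X2.act c z 1 = c 0 * z 1 := by rw [act_eq]; simp
  unfold T
  rw [a0, a1, key, key, act_eq]
  funext m
  fin_cases k <;> fin_cases a <;> fin_cases m <;> simp <;> ring

theorem cd_coord (n : WithTop ℕ∞) (j : Fin 7) : ContDiff ℝ n (fun z : E7 => z j) :=
  contDiff_apply ℝ ℂ j

theorem cd_conj (n : WithTop ℕ∞) {f : E7 → ℂ} {s : Set E7} (hf : ContDiffOn ℝ n f s) :
    ContDiffOn ℝ n (fun z => (starRingEnd ℂ) (f z)) s :=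
  Complex.conjCLE.contDiff.comp_contDiffOn hf

theorem cd_ofReal (n : WithTop ℕ∞) {f : E7 → ℝ} {s : Set E7} (hf : ContDiffOn ℝ n f s) :
    ContDiffOn ℝ n (fun z => ((f z : ℝ) : ℂ)) s :=
  Complex.ofRealCLM.contDiff.comp_contDiffOn hf

theorem cd_H (n : WithTop ℕ∞) (k : Fin 3) : ContDiff ℝ n (H k) := by
  have h : ∀ j : Fin 7, ContDiff ℝ n (fun z : E7 => ‖z j‖ ^ 2) := fun j =>
    (cd_coord n j).norm_sq ℝ
  unfold H
  fin_cases k
  · exact (h 0).add (h 1)
  · exact (((h 0).add (h 1)).mul ((h 2).add (h 3))).add (h 4)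
  · exact (h 5).add (h 6)

theorem cd_div (n : WithTop ℕ∞) {f g : E7 → ℂ} {s : Set E7} (hf : ContDiffOn ℝ n f s)
    (hg : ContDiffOn ℝ n g s) (h0 : ∀ z ∈ s, g z ≠ 0) : ContDiffOn ℝ n (fun z => f z / g z) s := by
  simp only [div_eq_mul_inv]
  exact hf.mul (hg.inv h0)

theorem T_smooth (n : WithTop ℕ∞) (k : Fin 3) (a : Fin 5) : ContDiffOn ℝ n (T k a) X2.U := by
  have hA : ContDiffOn ℝ n (fun z => ((AA z : ℝ) : ℂ)) X2.U := cd_ofReal n (cd_H n 0).contDiffOn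
  have hA0 : ∀ z ∈ X2.U, ((AA z : ℝ) : ℂ) ≠ 0 := fun z hz => by exact_mod_cast (AA_pos hz).ne'
  have hq : ∀ j : Fin 7, ContDiffOn ℝ n (fun z : E7 => (starRingEnd ℂ) (z j) / ((AA z : ℝ) : ℂ))
      X2.U := fun j => cd_div n (cd_conj n (cd_coord n j).contDiffOn) hA hA0
  rw [contDiffOn_pi]
  intro m
  unfold T
  fin_cases k <;> fin_cases a <;> fin_cases m <;> simp <;>
    first
    | exact contDiffOn_const
    | exact hq _

/-! ## the projectors -/

/-- entries of the projectors -/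
noncomputable def P (k : Fin 3) (a b : Fin 5) (z : E7) : ℂ :=
  W k a z * (starRingEnd ℂ) (W k b z) / ((H k z : ℝ) : ℂ)

theorem P_smooth (n : WithTop ℕ∞) (k : Fin 3) (a b : Fin 5) : ContDiffOn ℝ n (P k a b) X2.U :=
  cd_div n ((W_smooth k a n).contDiffOn.mul (cd_conj n (W_smooth k b n).contDiffOn))
    (cd_ofReal n (cd_H n k).contDiffOn) fun z hz => by exact_mod_cast (H_pos k hz).ne'

theorem P_act (k : Fin 3) (a b : Fin 5) {c : Fin 3 → ℂ} (hc : ∀ j, c j ≠ 0) (z : E7) :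
    P k a b (X2.act c z) = P k a b z := by
  have h0 := hc k
  have h1 : (starRingEnd ℂ) (c k) ≠ 0 := by simpa using h0
  unfold P
  rw [H_eq, H_eq]
  simp only [W_act _ _ hc, map_mul]
  have e : ∑ x, c k * W k x z * ((starRingEnd ℂ) (c k) * (starRingEnd ℂ) (W k x z)) =
      (c k * (starRingEnd ℂ) (c k)) * ∑ x, W k x z * (starRingEnd ℂ) (W k x z) := by
    rw [Finset.mul_sum]
    refine Finset.sum_congr rfl fun x _ => ?_
    ring
  rw [e]
  have e2 : c k * W k a z * ((starRingEnd ℂ) (c k) * (starRingEnd ℂ) (W k b z)) =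
      (c k * (starRingEnd ℂ) (c k)) * (W k a z * (starRingEnd ℂ) (W k b z)) := by ring
  rw [e2, mul_div_mul_left _ _ (mul_ne_zero h0 h1)]

theorem P_sum (k : Fin 3) (a : Fin 5) {z : E7} (hz : z ∈ X2.U) :
    ∑ b, P k a b z * W k b z = W k a z := by
  have hH : ((H k z : ℝ) : ℂ) ≠ 0 := by exact_mod_cast (H_pos k hz).ne'
  have e : ∑ b, P k a b z * W k b z = W k a z *
      (∑ b, W k b z * (starRingEnd ℂ) (W k b z)) / ((H k z : ℝ) : ℂ) := by
    rw [Finset.mul_sum, Finset.sum_div]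
    refine Finset.sum_congr rfl fun b _ => ?_
    unfold P
    ring
  rw [e, ← H_eq, mul_div_assoc, div_self hH, mul_one]

theorem P_deriv (k : Fin 3) (a : Fin 5) {z : E7} (hz : z ∈ X2.U) (v : E7) :
    ∑ b, fderiv ℝ (P k a b) z v * W k b z = W' k a z v - W k a z *
      ((∑ b, (starRingEnd ℂ) (W k b z) * W' k b z v) / ((H k z : ℝ) : ℂ)) := by
  have hU : X2.U ∈ 𝓝 z := isOpen_U.mem_nhds hz
  have dP : ∀ b, DifferentiableAt ℝ (P k a b) z := fun b =>
    ((P_smooth 1 k a b).contDiffAt hU).differentiableAt (by norm_num)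
  have dW : ∀ b, DifferentiableAt ℝ (W k b) z := fun b =>
    (W_smooth k b 1).contDiffAt.differentiableAt (by norm_num)
  have e1 : fderiv ℝ (fun z => ∑ b, P k a b z * W k b z) z v = fderiv ℝ (W k a) z v := by
    have : (fun z => ∑ b, P k a b z * W k b z) =ᶠ[𝓝 z] W k a := by
      filter_upwards [hU] with w hw
      exact P_sum k a hw
    rw [this.fderiv_eq]
  have e2 : fderiv ℝ (fun z => ∑ b, P k a b z * W k b z) z v =
      ∑ b, (P k a b z * fderiv ℝ (W k b) z v + fderiv ℝ (P k a b) z v * W k b z) := by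
    have h : HasFDerivAt (fun z => ∑ b, P k a b z * W k b z)
        (∑ b, (P k a b z • fderiv ℝ (W k b) z + W k b z • fderiv ℝ (P k a b) z)) z :=
      HasFDerivAt.fun_sum fun b _ => (dP b).hasFDerivAt.mul (dW b).hasFDerivAt
    rw [h.fderiv]
    simp [mul_comm]
  rw [e2, Finset.sum_add_distrib, W_deriv] at e1
  simp only [W_deriv] at e1
  have e3 : ∑ b, P k a b z * W' k b z v = W k a z *
      ((∑ b, (starRingEnd ℂ) (W k b z) * W' k b z v) / ((H k z : ℝ) : ℂ)) := by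
    rw [Finset.sum_div, Finset.mul_sum]
    refine Finset.sum_congr rfl fun b _ => ?_
    unfold P
    ring
  rw [← e3, ← e1]
  ring

/-- the vertical remainder -/
theorem vert_rem {z : E7} (hz : z ∈ X2.U) (v : E7) : X2.Vert z (v - ∑ k, ∑ a, (W' k a z v -
    W k a z * ((∑ b, (starRingEnd ℂ) (W k b z) * W' k b z v) / ((H k z : ℝ) : ℂ))) •
      T k a z) := by
  rw [vert_iff]
  have hA : ((AA z : ℝ) : ℂ) ≠ 0 := by exact_mod_cast (AA_pos hz).ne'
  have hA2 : ((AA z : ℝ) : ℂ) = z 0 * (starRingEnd ℂ) (z 0) + z 1 * (starRingEnd ℂ) (z 1) := by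
    have := H_eq 0 z
    simpa [H, W, Fin.sum_univ_five] using this
  refine ⟨(∑ b, (starRingEnd ℂ) (W 0 b z) * W' 0 b z v) / ((H 0 z : ℝ) : ℂ),
    (∑ b, (starRingEnd ℂ) (W 1 b z) * W' 1 b z v) / ((H 1 z : ℝ) : ℂ),
    (∑ b, (starRingEnd ℂ) (W 2 b z) * W' 2 b z v) / ((H 2 z : ℝ) : ℂ), ?_⟩
  have e0 : (∑ b, (starRingEnd ℂ) (W 0 b z) * W' 0 b z v) / ((H 0 z : ℝ) : ℂ) =
      ((starRingEnd ℂ) (z 0) * v 0 + (starRingEnd ℂ) (z 1) * v 1) / ((AA z : ℝ) : ℂ) := by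
    simp [W, W', H, Fin.sum_univ_five]
  rw [Fin.sum_univ_three]
  generalize (∑ b, (starRingEnd ℂ) (W 1 b z) * W' 1 b z v) / ((H 1 z : ℝ) : ℂ) = γ
  generalize (∑ b, (starRingEnd ℂ) (W 2 b z) * W' 2 b z v) / ((H 2 z : ℝ) : ℂ) = δ
  rw [e0]
  funext m
  fin_cases m
  · simp [W, W', T, Fin.sum_univ_five]
    ring
  · simp [W, W', T, Fin.sum_univ_five]
    ring
  · simp [W, W', T, Fin.sum_univ_five]
    field_simp
    rw [hA2]
    ring
  · simp [W, W', T, Fin.sum_univ_five]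
    field_simp
    rw [hA2]
    ring
  · simp [W, W', T, Fin.sum_univ_five]
    ring
  · simp [W, W', T, Fin.sum_univ_five]
    ring
  · simp [W, W', T, Fin.sum_univ_five]
    ring

/-! ## functions and vectors -/

/-- the index set -/
abbrev Ix : Type := Fin 3 × Fin 5 × Fin 5 × Bool

/-- the functions -/
noncomputable def phi (i : Ix) (z : E7) : ℝ :=
  if i.2.2.2 then (P i.1 i.2.1 i.2.2.1 z).im else (P i.1 i.2.1 i.2.2.1 z).re

/-- the vectors -/
noncomputable def Nv (i : Ix) (z : E7) : E7 :=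
  ((if i.2.2.2 then Complex.I else 1) * W i.1 i.2.2.1 z) • T i.1 i.2.1 z

theorem phi_inv (i : Ix) : InvFn (phi i) := by
  obtain ⟨k, a, b, r⟩ := i
  constructor
  · cases r
    · exact Complex.reCLM.contDiff.comp_contDiffOn (P_smooth _ k a b)
    · exact Complex.imCLM.contDiff.comp_contDiffOn (P_smooth _ k a b)
  · intro z _ c hc
    unfold phi
    rw [P_act _ _ _ hc]

theorem Nv_smooth (n : WithTop ℕ∞) (i : Ix) : ContDiffOn ℝ n (Nv i) X2.U :=
  (contDiffOn_const.mul (W_smooth _ _ n).contDiffOn).smul (T_smooth n _ _)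

theorem Nv_act (i : Ix) {c : Fin 3 → ℂ} (hc : ∀ j, c j ≠ 0) {z : E7} (hz : z ∈ X2.U) :
    Nv i (X2.act c z) = X2.act c (Nv i z) := by
  have hs : ∀ (u : ℂ) (x : E7), X2.act c (u • x) = u • X2.act c x := by
    intro u x
    rw [← actL_apply, ← actL_apply, map_smul]
  unfold Nv
  rw [W_act _ _ hc, hs, ← T_act _ _ hc hz, smul_smul]
  congr 1
  ring

theorem decomp {z : E7} (hz : z ∈ X2.U) (v : E7) :
    X2.Vert z (v - ∑ i : Ix, fderiv ℝ (phi i) z v • Nv i z) := by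
  have hU : X2.U ∈ 𝓝 z := isOpen_U.mem_nhds hz
  have dP : ∀ k a b, DifferentiableAt ℝ (P k a b) z := fun k a b =>
    ((P_smooth 1 k a b).contDiffAt hU).differentiableAt (by norm_num)
  have hre : ∀ k a b, fderiv ℝ (phi (k, a, b, false)) z v = (fderiv ℝ (P k a b) z v).re := by
    intro k a b
    have h : HasFDerivAt (phi (k, a, b, false)) (Complex.reCLM.comp (fderiv ℝ (P k a b) z)) z :=
      Complex.reCLM.hasFDerivAt.comp z (dP k a b).hasFDerivAt
    rw [h.fderiv]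
    rfl
  have him : ∀ k a b, fderiv ℝ (phi (k, a, b, true)) z v = (fderiv ℝ (P k a b) z v).im := by
    intro k a b
    have h : HasFDerivAt (phi (k, a, b, true)) (Complex.imCLM.comp (fderiv ℝ (P k a b) z)) z :=
      Complex.imCLM.hasFDerivAt.comp z (dP k a b).hasFDerivAt
    rw [h.fderiv]
    rfl
  have hb : ∀ k a b, ∑ r : Bool, fderiv ℝ (phi (k, a, b, r)) z v • Nv (k, a, b, r) z =
      (fderiv ℝ (P k a b) z v * W k b z) • T k a z := by
    intro k a b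
    rw [Fintype.sum_bool, hre, him]
    unfold Nv
    simp only [if_true, Bool.false_eq_true, if_false]
    rw [← Complex.coe_smul, ← Complex.coe_smul, smul_smul, smul_smul, ← add_smul]
    congr 1
    conv_rhs => rw [← Complex.re_add_im (fderiv ℝ (P k a b) z v)]
    ring
  have e : ∑ i : Ix, fderiv ℝ (phi i) z v • Nv i z = ∑ k, ∑ a, (W' k a z v -
      W k a z * ((∑ b, (starRingEnd ℂ) (W k b z) * W' k b z v) / ((H k z : ℝ) : ℂ))) •
      T k a z := by
    rw [Fintype.sum_prod_type]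
    refine Finset.sum_congr rfl fun k _ => ?_
    rw [Fintype.sum_prod_type]
    refine Finset.sum_congr rfl fun a _ => ?_
    rw [Fintype.sum_prod_type]
    simp only [hb]
    rw [← Finset.sum_smul, P_deriv k a hz]
  rw [e]
  exact vert_rem hz v

/-! ## the theorem -/

/-- bilinear expansion of a 2-form -/
theorem form_expand {N : ℕ} {ι : Type} [Fintype ι] (B : Alt N 2) (c d : ι → ℝ)
    (e : ι → Fin N → ℂ) : B ![∑ i, c i • e i, ∑ j, d j • e j] =
      ∑ i, ∑ j, c i * d j * B ![e i, e j] := by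
  have h1 : ∀ y, B ![∑ i, c i • e i, y] = ∑ i, c i * B ![e i, y] := by
    intro y
    have hl : ∀ x, B ![x, y] = B.toMultilinearMap.toLinearMap ![0, y] 0 x := by
      intro x
      have hu : Function.update ![0, y] 0 x = ![x, y] := by
        funext i
        fin_cases i <;> simp
      simp [MultilinearMap.toLinearMap, hu]
    rw [hl, map_sum]
    refine Finset.sum_congr rfl fun i _ => ?_
    rw [map_smul, ← hl, smul_eq_mul]
  have h2 : ∀ x, B ![x, ∑ j, d j • e j] = ∑ j, d j * B ![x, e j] := by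
    intro x
    have hl : ∀ y, B ![x, y] = B.toMultilinearMap.toLinearMap ![x, 0] 1 y := by
      intro y
      have hu : Function.update ![x, 0] 1 y = ![x, y] := by
        funext i
        fin_cases i <;> simp
      simp [MultilinearMap.toLinearMap, hu]
    rw [hl, map_sum]
    refine Finset.sum_congr rfl fun i _ => ?_
    rw [map_smul, ← hl, smul_eq_mul]
  rw [h1]
  refine Finset.sum_congr rfl fun i _ => ?_
  rw [h2, Finset.mul_sum]
  refine Finset.sum_congr rfl fun j _ => ?_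
  ring

theorem form_sub_left {N : ℕ} (B : Alt N 2) (x x' y : Fin N → ℂ) :
    B ![x - x', y] = B ![x, y] - B ![x', y] := by
  have h := B.map_update_sub ![0, y] 0 x x'
  have hu : ∀ u : Fin N → ℂ, Function.update ![0, y] 0 u = ![u, y] := by
    intro u
    funext i
    fin_cases i <;> simp
  rw [hu, hu, hu] at h
  exact h

theorem form_swap {N : ℕ} (B : Alt N 2) (x y : Fin N → ℂ) : B ![x, y] = - B ![y, x] := by
  have h := B.toAlternatingMap.map_swap ![y, x] (i := 0) (j := 1) (by decide)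
  have hu : (![y, x] : Fin 2 → Fin N → ℂ) ∘ (Equiv.swap (0 : Fin 2) 1) = ![x, y] := by
    funext i
    fin_cases i <;> simp
  rw [hu] at h
  exact h

theorem form_eta {N : ℕ} (B : Alt N 2) (v : Fin 2 → Fin N → ℂ) : B v = B ![v 0, v 1] := by
  congr 1
  funext i
  fin_cases i <;> rfl

/-- algebra of the antisymmetrization -/
theorem antisymm_sum {ι : Type} [Fintype ι] (C : ι → ι → ℝ) (hC : ∀ i j, C i j = - C j i)
    (x y : ι → ℝ) : ∑ i, ∑ j, C i j * (x i * y j - y i * x j) =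
      ∑ i, ∑ j, x i * y j * (2 * C i j) := by
  have e3 : ∑ i, ∑ j, C i j * (y i * x j) = - ∑ i, ∑ j, C i j * (x i * y j) := by
    rw [Finset.sum_comm, ← Finset.sum_neg_distrib]
    refine Finset.sum_congr rfl fun i _ => ?_
    rw [← Finset.sum_neg_distrib]
    refine Finset.sum_congr rfl fun j _ => ?_
    rw [hC]
    ring
  simp only [mul_sub, Finset.sum_sub_distrib]
  rw [e3, sub_neg_eq_add, ← Finset.sum_add_distrib]
  refine Finset.sum_congr rfl fun i _ => ?_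
  rw [← Finset.sum_add_distrib]
  refine Finset.sum_congr rfl fun j _ => ?_
  ring

theorem vert_left (B : Alt 7 2) (z : E7)
    (hver : ∀ (v : Fin 2 → E7) (i : Fin 2), X2.Vert z (v i) → B v = 0) (x x' y : E7)
    (h : X2.Vert z (x - x')) : B ![x, y] = B ![x', y] := by
  have h1 := hver ![x - x', y] 0 h
  rw [form_sub_left] at h1
  linarith

theorem vert_right (B : Alt 7 2) (z : E7)
    (hver : ∀ (v : Fin 2 → E7) (i : Fin 2), X2.Vert z (v i) → B v = 0) (x y y' : E7)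
    (h : X2.Vert z (y - y')) : B ![x, y] = B ![x, y'] := by
  rw [form_swap, form_swap _ x y', vert_left B z hver y y' x h]

section

variable {ι : Type} (ph : ι → E7 → ℝ) (Nw : ι → E7 → E7)

/-- the coefficients -/
noncomputable def cf (β : E7 → Alt 7 2) (i j : ι) (z : E7) : ℝ :=
  (1 / 2) * β z ![Nw i z, Nw j z]

theorem cf_inv (h2 : ∀ i, ContDiffOn ℝ ((⊤ : ℕ∞) : WithTop ℕ∞) (Nw i) X2.U)
    (h3 : ∀ i, ∀ z ∈ X2.U, ∀ c : Fin 3 → ℂ, (∀ j, c j ≠ 0) →
      Nw i (X2.act c z) = X2.act c (Nw i z))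
    (β : E7 → Alt 7 2) (hβ : X2.Smooth β)
    (hinv : ∀ z ∈ X2.U, ∀ c : Fin 3 → ℂ, (∀ j, c j ≠ 0) →
      ∀ v, β (X2.act c z) (fun i => X2.act c (v i)) = β z v) (i j : ι) :
    InvFn (cf Nw β i j) := by
  constructor
  · refine contDiffOn_const.mul ?_
    refine (contDiff_eval 7 2 _).comp_contDiffOn
      (f := fun z => (β z, ![Nw i z, Nw j z])) (ContDiffOn.prodMk hβ ?_)
    rw [contDiffOn_pi]
    intro m
    fin_cases m
    · exact h2 _
    · exact h2 _
  · intro z hz c hcc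
    show (1 / 2) * β (X2.act c z) ![Nw i (X2.act c z), Nw j (X2.act c z)] =
      (1 / 2) * β z ![Nw i z, Nw j z]
    rw [h3 i z hz c hcc, h3 j z hz c hcc, ← hinv z hz c hcc]
    congr 2
    funext m
    fin_cases m <;> rfl

theorem cf_swap (β : E7 → Alt 7 2) (i j : ι) (z : E7) : cf Nw β i j z = - cf Nw β j i z := by
  show (1 / 2) * β z ![Nw i z, Nw j z] = -((1 / 2) * β z ![Nw j z, Nw i z])
  rw [form_swap]
  ring

theorem cf_two (β : E7 → Alt 7 2) (i j : ι) (z : E7) :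
    2 * cf Nw β i j z = β z ![Nw i z, Nw j z] := by
  unfold cf
  ring

theorem lhs_eq [Fintype ι] (B : Alt 7 2) {z : E7}
    (h4 : ∀ v : E7, X2.Vert z (v - ∑ i, fderiv ℝ (ph i) z v • Nw i z))
    (hver : ∀ (v : Fin 2 → E7) (i : Fin 2), X2.Vert z (v i) → B v = 0) (v : Fin 2 → E7) :
    B v = ∑ i, ∑ j, fderiv ℝ (ph i) z (v 0) * fderiv ℝ (ph j) z (v 1) *
      B ![Nw i z, Nw j z] := by
  rw [form_eta, vert_left B z hver _ _ _ (h4 (v 0)),
    vert_right B z hver _ _ _ (h4 (v 1)), form_expand]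

theorem rhs_eq [Fintype ι] (C : ι → ι → ℝ) (b c : ι → E7 →L[ℝ] ℝ)
    (v : Fin 2 → E7) : (∑ p : ι × ι, C p.1 p.2 • cc2 (b p.1) (c p.2)) v =
      ∑ i, ∑ j, C i j * (b i (v 0) * c j (v 1) - b i (v 1) * c j (v 0)) := by
  rw [ContinuousAlternatingMap.sum_apply, Fintype.sum_prod_type]
  refine Finset.sum_congr rfl fun i _ => Finset.sum_congr rfl fun j _ => ?_
  rw [ContinuousAlternatingMap.smul_apply, cc2_apply, smul_eq_mul]

theorem main_eq [Fintype ι] (β : E7 → Alt 7 2)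
    (hver : ∀ z ∈ X2.U, ∀ (v : Fin 2 → E7) (i : Fin 2), X2.Vert z (v i) → β z v = 0)
    {z : E7} (hz : z ∈ X2.U)
    (h4 : ∀ v : E7, X2.Vert z (v - ∑ i, fderiv ℝ (ph i) z v • Nw i z)) :
    β z = ∑ p : ι × ι, cf Nw β p.1 p.2 z •
      cc2 (fderiv ℝ (ph p.1) z) (fderiv ℝ (ph p.2) z) := by
  ext v
  rw [rhs_eq (fun i j => cf Nw β i j z) (fun i => fderiv ℝ (ph i) z)
    (fun i => fderiv ℝ (ph i) z) v, lhs_eq ph Nw (β z) h4 (hver z hz) v,
    antisymm_sum (fun i j => cf Nw β i j z)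
    (fun i j => cf_swap Nw β i j z) (fun i => fderiv ℝ (ph i) z (v 0))
    (fun i => fderiv ℝ (ph i) z (v 1))]
  refine Finset.sum_congr rfl fun i _ => Finset.sum_congr rfl fun j _ => ?_
  rw [cf_two]

end

theorem reindex {ι : Type} [Fintype ι] (β : E7 → Alt 7 2) (a f g : ι → E7 → ℝ)
    (h : ∀ i, InvFn (a i) ∧ InvFn (f i) ∧ InvFn (g i))
    (he : ∀ z ∈ X2.U, β z = ∑ i, a i z • cc2 (fderiv ℝ (f i) z) (fderiv ℝ (g i) z)) :
    ∃ (m : ℕ) (a f g : Fin m → E7 → ℝ), (∀ i, InvFn (a i) ∧ InvFn (f i) ∧ InvFn (g i)) ∧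
      ∀ z ∈ X2.U, β z = ∑ i, a i z • cc2 (fderiv ℝ (f i) z) (fderiv ℝ (g i) z) := by
  refine ⟨Fintype.card ι, fun m => a ((Fintype.equivFin ι).symm m),
    fun m => f ((Fintype.equivFin ι).symm m), fun m => g ((Fintype.equivFin ι).symm m),
    fun m => h _, fun z hz => ?_⟩
  rw [he z hz]
  exact (Equiv.sum_comp (Fintype.equivFin ι).symm
    (fun i => a i z • cc2 (fderiv ℝ (f i) z) (fderiv ℝ (g i) z))).symm

theorem gen_of {ι : Type} [Fintype ι] (ph : ι → E7 → ℝ) (Nw : ι → E7 → E7)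
    (h1 : ∀ i, InvFn (ph i)) (h2 : ∀ i, ContDiffOn ℝ ((⊤ : ℕ∞) : WithTop ℕ∞) (Nw i) X2.U)
    (h3 : ∀ i, ∀ z ∈ X2.U, ∀ c : Fin 3 → ℂ, (∀ j, c j ≠ 0) →
      Nw i (X2.act c z) = X2.act c (Nw i z))
    (h4 : ∀ z ∈ X2.U, ∀ v : E7, X2.Vert z (v - ∑ i, fderiv ℝ (ph i) z v • Nw i z)) :
    GenStmt := by
  intro β hβ
  exact reindex β.1 (fun p : ι × ι => cf Nw β.1 p.1 p.2) (fun p => ph p.1) (fun p => ph p.2)
    (fun p => ⟨cf_inv Nw h2 h3 β.1 hβ β.2.2.1.1 p.1 p.2, h1 _, h1 _⟩)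
    (fun z hz => main_eq ph Nw β.1 β.2.2.1.2 hz (h4 z hz))

theorem gen (_hBSD : BsdStmt) : GenStmt :=
  gen_of phi Nv phi_inv (Nv_smooth _) (fun i _ hz _ hc => Nv_act i hc hz)
    (fun _ hz v => decomp hz v)

end Pool.Agent.SIU.H91
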